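import Pool.Agent.H126R2.CDC.Main

set_option autoImplicit false
set_option linter.unusedSectionVars false

/-!
Circuit double covers from the absence of bridges (one-edge cuts), parity of cuts of even sets.
-/

namespace Pool.Agent.Y411.Cdc

open Finset
open Pool.Agent.H126R2.CDC
open Pool.Agent.Helper879.ECD (F2 IsFlow f2_add_self f2_cases cn)

variable {V E : Type} [Fintype V] [DecidableEq V] [Fintype E] [DecidableEq E]

/-- the crossing number of a set of edges, as a sum over the field with two elements -/
lemma cast_cross (a b : E → V) (D : Finset E) (X : Finset V) :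
    (((D.filter (fun e => ¬ (a e ∈ X ↔ b e ∈ X))).card : ℕ) : F2) =
      ∑ e, (if e ∈ D then (1 : F2) else 0) *
        ((if a e ∈ X then (1 : F2) else 0) + (if b e ∈ X then (1 : F2) else 0)) := by
  rw [Finset.card_filter, Nat.cast_sum]
  have h1 : ∑ e ∈ D, (((if ¬ (a e ∈ X ↔ b e ∈ X) then 1 else 0 : ℕ)) : F2) =
      ∑ e : E, (if e ∈ D then (((if ¬ (a e ∈ X ↔ b e ∈ X) then 1 else 0 : ℕ)) : F2) else 0) := by
    rw [← Finset.sum_filter]
    congr 1
    ext e
    simp
  rw [h1]
  apply Finset.sum_congr rfl
  intro e _
  by_cases h2 : e ∈ D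
  · rw [if_pos h2, if_pos h2, one_mul]
    by_cases h3 : a e ∈ X <;> by_cases h4 : b e ∈ X <;> simp [h3, h4, f2_add_self]
  · rw [if_neg h2, if_neg h2, zero_mul]

/-- an even edge set crosses every cut an even number of times -/
lemma even_cross (G : MGraph V E) (v : E × Bool → V)
    (hv : ∀ e, G.ends e = s(v (e, false), v (e, true))) (D : Finset E) (hD : G.IsEven D)
    (X : Finset V) :
    Even ((D.filter (fun e => ¬ (v (e, false) ∈ X ↔ v (e, true) ∈ X))).card) := by
  rw [← ZMod.natCast_eq_zero_iff_even]
  have h1 := (isFl_iff v _).1 ((G.isEven_iff v hv D).1 hD) (fun w => if w ∈ X then 1 else 0)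
  rw [← h1]
  exact cast_cross (fun e => v (e, false)) (fun e => v (e, true)) D X

/-- a graph without one-edge cuts has a circuit double cover -/
theorem cdc_of_cuts (G : MGraph V E) (v : E × Bool → V)
    (hv : ∀ e, G.ends e = s(v (e, false), v (e, true)))
    (h : ∀ X : Finset V,
      ((univ : Finset E).filter (fun e => ¬ (v (e, false) ∈ X ↔ v (e, true) ∈ X))).card ≠ 1) :
    ∃ F : Multiset (Finset E), G.IsCDC F := by
  classical
  obtain ⟨S, hS1, hS2⟩ := exists_double_cover v h
  have hev : ∀ c : T3, G.IsEven (univ.filter (fun e => c ∈ S e)) := by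
    intro c
    rw [G.isEven_iff v hv]
    have h1 := hS2 c
    have h2 : (fun e => if e ∈ univ.filter (fun e => c ∈ S e) then (1 : F2) else 0) =
        (fun e => if c ∈ S e then 1 else 0) := by
      ext e; simp
    rw [h2]
    exact h1
  choose F hF1 hF2 using fun c => G.decompose _ _ rfl (hev c)
  refine ⟨∑ c, F c, ?_, ?_⟩
  · intro C hC
    rw [Multiset.mem_sum] at hC
    obtain ⟨c, _, hc⟩ := hC
    exact hF1 c C hc
  · intro e
    have h1 : ∀ s : Finset T3, (∑ c ∈ s, F c).countP (fun C => e ∈ C) =
        ∑ c ∈ s, (F c).countP (fun C => e ∈ C) := by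
      intro s
      induction s using Finset.induction_on with
      | empty => simp
      | insert c s hc ih => rw [Finset.sum_insert hc, Finset.sum_insert hc, Multiset.countP_add, ih]
    rw [h1]
    have h2 : ∀ c ∈ (univ : Finset T3), (F c).countP (fun C => e ∈ C) =
        if c ∈ S e then 1 else 0 := by
      intro c _
      rw [hF2 c e]
      simp
    rw [Finset.sum_congr rfl h2]
    simp [hS1 e]

/-- parity in a contracted graph: if `r` maps every vertex to a representative of its class, every
class has an even number of edges of `N` leaving it and `X` is a union of classes, then an even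
number of edges of `N` leave `X` -/
lemma even_contract (a b : E → V) (N : Finset E) (r : V → V) (hr : ∀ w, r (r w) = r w)
    (hev : ∀ u, Even ((N.filter (fun e => ¬ (r (a e) = r u ↔ r (b e) = r u))).card))
    (X : Finset V) (hX : ∀ w, w ∈ X ↔ r w ∈ X) :
    Even ((N.filter (fun e => ¬ (a e ∈ X ↔ b e ∈ X))).card) := by
  rw [← ZMod.natCast_eq_zero_iff_even]
  have h0 : ((N.filter (fun e => ¬ (a e ∈ X ↔ b e ∈ X))).card : F2) =
      ((N.filter (fun e => ¬ (r (a e) ∈ X ↔ r (b e) ∈ X))).card : F2) := by
    congr 2
    ext e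
    simp only [Finset.mem_filter]
    rw [hX (a e), hX (b e)]
  rw [h0, cast_cross (fun e => r (a e)) (fun e => r (b e)) N X]
  have h1 : ∀ w : V, ∑ e, (if e ∈ N then (1 : F2) else 0) *
      ((if r (a e) = w then (1 : F2) else 0) + (if r (b e) = w then (1 : F2) else 0)) = 0 := by
    intro w
    by_cases hw : r w = w
    · have h2 := cast_cross (fun e => r (a e)) (fun e => r (b e)) N ({w} : Finset V)
      have h3 := (ZMod.natCast_eq_zero_iff_even).2 (hev w)
      rw [hw] at h3
      simp only [Finset.mem_singleton] at h2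
      rw [← h2, h3]
    · apply Finset.sum_eq_zero
      intro e _
      have h2 : ¬ r (a e) = w := by
        intro h; apply hw; rw [← h]; exact hr _
      have h3 : ¬ r (b e) = w := by
        intro h; apply hw; rw [← h]; exact hr _
      rw [if_neg h2, if_neg h3, add_zero, mul_zero]
  have h2 : ∀ w ∈ (univ : Finset V), (if w ∈ X then (1 : F2) else 0) *
      ∑ e, (if e ∈ N then (1 : F2) else 0) *
      ((if r (a e) = w then (1 : F2) else 0) + (if r (b e) = w then (1 : F2) else 0)) = 0 :=
    fun w _ => by rw [h1 w, mul_zero]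
  have h3 := Finset.sum_congr rfl h2
  simp only [Finset.mul_sum] at h3
  rw [Finset.sum_comm, Finset.sum_const_zero] at h3
  refine Eq.trans ?_ h3
  apply Finset.sum_congr rfl
  intro e _
  have h4 : ∀ w ∈ (univ : Finset V), (if w ∈ X then (1 : F2) else 0) *
      ((if e ∈ N then (1 : F2) else 0) *
        ((if r (a e) = w then (1 : F2) else 0) + (if r (b e) = w then (1 : F2) else 0))) =
      (if e ∈ N then (1 : F2) else 0) * ((if r (a e) = w then (if w ∈ X then (1 : F2) else 0) else 0)
        + (if r (b e) = w then (if w ∈ X then (1 : F2) else 0) else 0)) := by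
    intro w _
    by_cases c1 : r (a e) = w <;> by_cases c2 : r (b e) = w <;>
      simp only [c1, c2, if_true, if_false] <;> ring
  rw [Finset.sum_congr rfl h4, ← Finset.mul_sum, Finset.sum_add_distrib]
  simp only [Finset.sum_ite_eq, Finset.mem_univ, if_true]

end Pool.Agent.Y411.Cdc
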