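import Pool.Agent.H126R2.CDC.Defs

set_option autoImplicit false

/-!
Frames and semi-Kotzig frames of cubic graphs.
-/

namespace Pool.Agent.Y411.Kotzig

open Finset
open Pool.Agent.H126R2.CDC (MGraph)

variable {V E : Type} [Fintype V] [DecidableEq V] [Fintype E] [DecidableEq E]

/-- `u` and `v` lie in the same component of the spanning subgraph with edge set `H`. -/
def SameComp (G : MGraph V E) (H : Finset E) (u v : V) : Prop :=
  Relation.ReflTransGen (fun x y => ∃ e ∈ H, G.ends e = s(x, y)) u v

open Classical in
/-- `H` is a frame: in the graph obtained from `G` by contracting every component of `H`, all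
degrees are even (an edge outside `H` with both ends in one component becomes a loop and adds 2). -/
def IsFrame (G : MGraph V E) (H : Finset E) : Prop :=
  ∀ u : V, Even (univ.filter fun e => e ∉ H ∧
    (∃ x ∈ G.ends e, SameComp G H u x) ∧ ∃ y ∈ G.ends e, ¬ SameComp G H u y).card

/-- The component of `u` in `H` is a circuit. -/
def CircuitComponent (G : MGraph V E) (H : Finset E) (u : V) : Prop :=
  ∀ v, SameComp G H u v → G.deg H v = 2

/-- `c` is a 3-edge-colouring of the suppressed graph at `v`: either `v` has degree 2 in `H` and its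
two edges of `H` have the same colour, or it has degree 3 and its edges of `H` have different
colours. -/
def ProperAt (G : MGraph V E) (H : Finset E) (c : E → ZMod 3) (v : V) : Prop :=
  (G.deg H v = 2 ∧ ∀ e ∈ H, ∀ f ∈ H, v ∈ G.ends e → v ∈ G.ends f → c e = c f) ∨
  (G.deg H v = 3 ∧ ∀ e ∈ H, ∀ f ∈ H, v ∈ G.ends e → v ∈ G.ends f → c e = c f → e = f)

/-- The component of `u` in `H` is a subdivision of a semi-Kotzig graph with the colouring `c`: for
every 3-edge-colouring `c'` of it with the same edges of colour 0 (that is, `c` with the colours 1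
and 2 exchanged on some circuits of the 2-factor formed by these two colours) and each `μ ≠ 0` the
edges of colours 0 and `μ` form a Hamilton circuit of the suppressed graph. -/
def IsSemiKotzig (G : MGraph V E) (H : Finset E) (u : V) (c : E → ZMod 3) : Prop :=
  (∀ v, SameComp G H u v → ProperAt G H c v) ∧
  ∀ c' : E → ZMod 3, (∀ v, SameComp G H u v → ProperAt G H c' v) →
    (∀ e ∈ H, (∃ x ∈ G.ends e, SameComp G H u x) → (c' e = 0 ↔ c e = 0)) →
    ∀ μ : ZMod 3, μ ≠ 0 → ∀ v w : V, SameComp G H u v → SameComp G H u w →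
      (∃ e ∈ H, v ∈ G.ends e ∧ (c' e = 0 ∨ c' e = μ)) →
      (∃ e ∈ H, w ∈ G.ends e ∧ (c' e = 0 ∨ c' e = μ)) →
      SameComp G (H.filter fun e => c' e = 0 ∨ c' e = μ) v w

/-- `H` is a semi-Kotzig frame of `G`. -/
def IsSemiKotzigFrame (G : MGraph V E) (H : Finset E) : Prop :=
  IsFrame G H ∧ ∀ u : V, CircuitComponent G H u ∨ ∃ c : E → ZMod 3, IsSemiKotzig G H u c

end Pool.Agent.Y411.Kotzig
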