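import Pool.Agent.Y411.Cdc
import Pool.Agent.Y411.KotzigDefs

set_option autoImplicit false
set_option linter.unusedSectionVars false

/-!
A cubic graph with a semi-Kotzig frame has no bridge, hence it has a circuit double cover.
-/

namespace Pool.Agent.Y411.Kotzig

open Finset
open Pool.Agent.H126R2.CDC
open Pool.Agent.Y411.Cdc

variable {V E : Type} [Fintype V] [DecidableEq V] [Fintype E] [DecidableEq E]

lemma sameComp_symm (G : MGraph V E) (H : Finset E) {u v : V} (h : SameComp G H u v) :
    SameComp G H v u := by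
  unfold SameComp at *
  induction h with
  | refl => exact Relation.ReflTransGen.refl
  | tail _ h2 ih =>
    obtain ⟨e, he, h3⟩ := h2
    exact Relation.ReflTransGen.head ⟨e, he, by rw [h3]; exact Sym2.eq_swap⟩ ih

lemma sameComp_trans (G : MGraph V E) (H : Finset E) {u v w : V} (h : SameComp G H u v)
    (h' : SameComp G H v w) : SameComp G H u w := Relation.ReflTransGen.trans h h'

lemma sameComp_edge (G : MGraph V E) (H : Finset E) {e : E} (he : e ∈ H) {x y : V}
    (hx : x ∈ G.ends e) (hy : y ∈ G.ends e) : SameComp G H x y := by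
  by_cases h : x = y
  · rw [h]; exact Relation.ReflTransGen.refl
  · exact Relation.ReflTransGen.single ⟨e, he, (Sym2.mem_and_mem_iff h).1 ⟨hx, hy⟩⟩

/-- degree in a loopless graph -/
lemma deg_loopless (G : MGraph V E) (hl : ∀ e, ¬ (G.ends e).IsDiag) (D : Finset E) (v : V) :
    G.deg D v = (D.filter fun e => v ∈ G.ends e).card := by
  unfold MGraph.deg
  have : (D.filter fun e => G.ends e = s(v, v)) = ∅ := by
    rw [Finset.filter_eq_empty_iff]
    intro e _ h
    apply hl e
    rw [h]
    exact Sym2.mk_isDiag_iff.2 rfl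
  rw [this, Finset.card_empty, add_zero]

/-- three edges of different colours: exactly two have colour 0 or μ -/
lemma card_two (S : Finset E) (c : E → ZMod 3) (hS : S.card = 3)
    (hinj : ∀ e ∈ S, ∀ f ∈ S, c e = c f → e = f) (μ : ZMod 3) (hμ : μ ≠ 0) :
    (S.filter fun e => c e = 0 ∨ c e = μ).card = 2 := by
  have h1 : (S.image c).card = 3 := by
    rw [Finset.card_image_of_injOn (fun e he f hf h => hinj e he f hf h), hS]
  have h2 : S.image c = univ := by
    apply Finset.eq_univ_of_card
    rw [h1]; rfl
  have h3 : ((S.filter fun e => c e = 0 ∨ c e = μ).image c) = {0, μ} := by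
    ext z
    rw [Finset.mem_image, Finset.mem_insert, Finset.mem_singleton]
    constructor
    · rintro ⟨e, he, rfl⟩
      exact (Finset.mem_filter.1 he).2
    · intro hz
      have h4 : z ∈ S.image c := by rw [h2]; exact Finset.mem_univ _
      obtain ⟨e, he, rfl⟩ := Finset.mem_image.1 h4
      exact ⟨e, Finset.mem_filter.2 ⟨he, hz⟩, rfl⟩
  have h4 : ((S.filter fun e => c e = 0 ∨ c e = μ).image c).card =
      (S.filter fun e => c e = 0 ∨ c e = μ).card := by
    apply Finset.card_image_of_injOn
    intro e he f hf h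
    exact hinj e (Finset.mem_filter.1 he).1 f (Finset.mem_filter.1 hf).1 h
  rw [← h4, h3, Finset.card_pair (Ne.symm hμ)]

theorem no_bridge (G : MGraph V E) (hl : ∀ e, ¬ (G.ends e).IsDiag) (H : Finset E)
    (hH : IsSemiKotzigFrame G H) (v : E × Bool → V)
    (hv : ∀ e, G.ends e = s(v (e, false), v (e, true))) (X : Finset V) :
    ((univ : Finset E).filter (fun e => ¬ (v (e, false) ∈ X ↔ v (e, true) ∈ X))).card ≠ 1 := by
  classical
  intro hcard
  obtain ⟨e0, he0⟩ := Finset.card_eq_one.1 hcard
  have hcross : ∀ e, ¬ (v (e, false) ∈ X ↔ v (e, true) ∈ X) ↔ e = e0 := by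
    intro e
    have : e ∈ (univ : Finset E).filter (fun e => ¬ (v (e, false) ∈ X ↔ v (e, true) ∈ X)) ↔
        e ∈ ({e0} : Finset E) := by rw [he0]
    simpa using this
  obtain ⟨hfr, hcomp⟩ := hH
  have hmem1 : ∀ e, v (e, false) ∈ G.ends e := fun e => by rw [hv]; exact Sym2.mem_mk_left _ _
  have hmem2 : ∀ e, v (e, true) ∈ G.ends e := fun e => by rw [hv]; exact Sym2.mem_mk_right _ _
  have hmem : ∀ e x, x ∈ G.ends e ↔ x = v (e, false) ∨ x = v (e, true) := fun e x => by
    rw [hv, Sym2.mem_iff]
  -- an even set contained in `H` and containing `e0` gives a contradiction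
  have key : ∀ D : Finset E, G.IsEven D → e0 ∉ D := by
    intro D hD h0
    have h1 := even_cross G v hv D hD X
    have h2 : (D.filter (fun e => ¬ (v (e, false) ∈ X ↔ v (e, true) ∈ X))) = {e0} := by
      ext e
      rw [Finset.mem_filter, hcross, Finset.mem_singleton]
      exact ⟨fun h => h.2, fun h => ⟨by rw [h]; exact h0, h⟩⟩
    rw [h2, Finset.card_singleton] at h1
    exact absurd h1 (by decide)
  by_cases heH : e0 ∈ H
  · -- the component containing `e0`
    obtain ⟨u, hu⟩ : ∃ u, u = v (e0, false) := ⟨_, rfl⟩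
    have hue : u ∈ G.ends e0 := by rw [hu]; exact hmem1 e0
    have huu : SameComp G H u u := Relation.ReflTransGen.refl
    -- membership of edges at a vertex of the component
    have hcl : ∀ w, SameComp G H u w → ∀ e ∈ H, w ∈ G.ends e → ∃ x ∈ G.ends e, SameComp G H u x :=
      fun w hw e _ hwe => ⟨w, hwe, hw⟩
    have hcl2 : ∀ w, ¬ SameComp G H u w → ∀ e ∈ H, w ∈ G.ends e →
        ¬ ∃ x ∈ G.ends e, SameComp G H u x := by
      rintro w hw e he hwe ⟨x, hx, hux⟩
      exact hw (sameComp_trans G H hux (sameComp_edge G H he hx hwe))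
    rcases hcomp u with h | ⟨c, hc, -⟩
    · refine key (H.filter fun e => ∃ x ∈ G.ends e, SameComp G H u x) ?_
        (Finset.mem_filter.2 ⟨heH, u, hue, huu⟩)
      intro w
      rw [deg_loopless G hl, Finset.filter_filter]
      by_cases hw : SameComp G H u w
      · have h1 := h w hw
        rw [deg_loopless G hl] at h1
        have h2 : (H.filter fun e => (∃ x ∈ G.ends e, SameComp G H u x) ∧ w ∈ G.ends e) =
            H.filter fun e => w ∈ G.ends e := by
          ext e
          simp only [Finset.mem_filter]
          exact ⟨fun h => ⟨h.1, h.2.2⟩, fun h => ⟨h.1, hcl w hw e h.1 h.2, h.2⟩⟩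
        rw [h2, h1]
        decide
      · have h2 : (H.filter fun e => (∃ x ∈ G.ends e, SameComp G H u x) ∧ w ∈ G.ends e) = ∅ := by
          rw [Finset.filter_eq_empty_iff]
          rintro e he ⟨h3, h4⟩
          exact hcl2 w hw e he h4 h3
        rw [h2]
        exact ⟨0, rfl⟩
    · obtain ⟨μ, hμ, hμ0⟩ : ∃ μ : ZMod 3, μ ≠ 0 ∧ (c e0 = 0 ∨ c e0 = μ) := by
        by_cases h0 : c e0 = 0
        · exact ⟨1, by decide, Or.inl h0⟩
        · exact ⟨c e0, h0, Or.inr rfl⟩
      refine key (H.filter fun e => (∃ x ∈ G.ends e, SameComp G H u x) ∧ (c e = 0 ∨ c e = μ)) ?_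
        (Finset.mem_filter.2 ⟨heH, ⟨u, hue, huu⟩, hμ0⟩)
      intro w
      rw [deg_loopless G hl, Finset.filter_filter]
      by_cases hw : SameComp G H u w
      · have h2 : (H.filter fun e => ((∃ x ∈ G.ends e, SameComp G H u x) ∧
            (c e = 0 ∨ c e = μ)) ∧ w ∈ G.ends e) =
            (H.filter fun e => w ∈ G.ends e).filter fun e => c e = 0 ∨ c e = μ := by
          ext e
          simp only [Finset.mem_filter]
          exact ⟨fun h => ⟨⟨h.1, h.2.2⟩, h.2.1.2⟩,
            fun h => ⟨h.1.1, ⟨hcl w hw e h.1.1 h.1.2, h.2⟩, h.1.2⟩⟩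
        rw [h2]
        rcases hc w hw with ⟨h3, h4⟩ | ⟨h3, h4⟩
        · rw [deg_loopless G hl] at h3
          by_cases h5 : ∃ e ∈ H, w ∈ G.ends e ∧ (c e = 0 ∨ c e = μ)
          · obtain ⟨e, he1, he2, he3⟩ := h5
            have h6 : ((H.filter fun e => w ∈ G.ends e).filter fun e => c e = 0 ∨ c e = μ) =
                H.filter fun e => w ∈ G.ends e := by
              apply Finset.filter_true_of_mem
              intro f hf
              rw [Finset.mem_filter] at hf
              rw [h4 f hf.1 e he1 hf.2 he2]
              exact he3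
            rw [h6, h3]
            decide
          · have h6 : ((H.filter fun e => w ∈ G.ends e).filter fun e => c e = 0 ∨ c e = μ) = ∅ := by
              rw [Finset.filter_eq_empty_iff]
              intro f hf h7
              rw [Finset.mem_filter] at hf
              exact h5 ⟨f, hf.1, hf.2, h7⟩
            rw [h6]
            exact ⟨0, rfl⟩
        · rw [deg_loopless G hl] at h3
          rw [card_two _ c h3 ?_ μ hμ]
          · decide
          · intro e he f hf hef
            rw [Finset.mem_filter] at he hf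
            exact h4 e he.1 f hf.1 he.2 hf.2 hef
      · have h2 : (H.filter fun e => ((∃ x ∈ G.ends e, SameComp G H u x) ∧
            (c e = 0 ∨ c e = μ)) ∧ w ∈ G.ends e) = ∅ := by
          rw [Finset.filter_eq_empty_iff]
          rintro e he ⟨h3, h4⟩
          exact hcl2 w hw e he h4 h3.1
        rw [h2]
        exact ⟨0, rfl⟩
  · -- `e0` is outside the frame: no edge of `H` leaves `X`
    have hX : ∀ w w', SameComp G H w w' → (w ∈ X ↔ w' ∈ X) := by
      intro w w' h
      unfold SameComp at h
      induction h with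
      | refl => exact Iff.rfl
      | tail _ h2 ih =>
        rename_i y z _
        obtain ⟨e, he, hyz⟩ := h2
        have hne : e ≠ e0 := by rintro rfl; exact heH he
        have h3 : (v (e, false) ∈ X ↔ v (e, true) ∈ X) := by
          by_contra hcon
          exact hne ((hcross e).1 hcon)
        rw [ih]
        rw [hv, Sym2.eq_iff] at hyz
        rcases hyz with ⟨h4, h5⟩ | ⟨h4, h5⟩
        · rw [← h4, ← h5]; exact h3
        · rw [← h4, ← h5]; exact h3.symm
    -- representatives
    let st : Setoid V := ⟨SameComp G H, fun _ => Relation.ReflTransGen.refl,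
      fun h => sameComp_symm G H h, fun h h' => sameComp_trans G H h h'⟩
    let r : V → V := fun w => (Quotient.mk st w).out
    have hrw : ∀ w, SameComp G H (r w) w := fun w => Quotient.exact (Quotient.out_eq (Quotient.mk st w))
    have hreq : ∀ w w', r w = r w' ↔ SameComp G H w w' := by
      intro w w'
      constructor
      · intro h
        have h1 := sameComp_symm G H (hrw w)
        rw [h] at h1
        exact sameComp_trans G H h1 (hrw w')
      · intro h
        have : Quotient.mk st w = Quotient.mk st w' := Quotient.sound h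
        simp only [r, this]
    have hrr : ∀ w, r (r w) = r w := fun w => (hreq _ _).2 (hrw w)
    have h1 := even_contract (fun e => v (e, false)) (fun e => v (e, true)) (univ \ H) r hrr ?_ X
      (fun w => hX w (r w) (sameComp_symm G H (hrw w)))
    · have h2 : ((univ \ H).filter (fun e => ¬ (v (e, false) ∈ X ↔ v (e, true) ∈ X))) = {e0} := by
        ext e
        rw [Finset.mem_filter, hcross, Finset.mem_singleton, Finset.mem_sdiff]
        exact ⟨fun h => h.2, fun h => ⟨⟨Finset.mem_univ _, by rw [h]; exact heH⟩, h⟩⟩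
      rw [h2, Finset.card_singleton] at h1
      exact absurd h1 (by decide)
    · intro u
      have h2 := hfr u
      have h3 : ((univ \ H).filter (fun e => ¬ (r (v (e, false)) = r u ↔ r (v (e, true)) = r u))) =
          (univ.filter fun e => e ∉ H ∧
            (∃ x ∈ G.ends e, SameComp G H u x) ∧ ∃ y ∈ G.ends e, ¬ SameComp G H u y) := by
        ext e
        simp only [Finset.mem_filter, Finset.mem_sdiff, Finset.mem_univ, true_and, hreq, hmem]
        have s1 : SameComp G H (v (e, false)) u ↔ SameComp G H u (v (e, false)) :=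
          ⟨sameComp_symm G H, sameComp_symm G H⟩
        have s2 : SameComp G H (v (e, true)) u ↔ SameComp G H u (v (e, true)) :=
          ⟨sameComp_symm G H, sameComp_symm G H⟩
        rw [s1, s2]
        constructor
        · rintro ⟨ha, hb⟩
          refine ⟨ha, ?_⟩
          by_cases c1 : SameComp G H u (v (e, false))
          · have c2 : ¬ SameComp G H u (v (e, true)) := fun c2 => hb ⟨fun _ => c2, fun _ => c1⟩
            exact ⟨⟨_, Or.inl rfl, c1⟩, ⟨_, Or.inr rfl, c2⟩⟩
          · have c2 : SameComp G H u (v (e, true)) := by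
              by_contra c2
              exact hb ⟨fun h => absurd h c1, fun h => absurd h c2⟩
            exact ⟨⟨_, Or.inr rfl, c2⟩, ⟨_, Or.inl rfl, c1⟩⟩
        · rintro ⟨ha, ⟨x, hx, hx'⟩, ⟨y, hy, hy'⟩⟩
          refine ⟨ha, fun hiff => ?_⟩
          rcases hx with rfl | rfl <;> rcases hy with rfl | rfl
          · exact hy' hx'
          · exact hy' (hiff.1 hx')
          · exact hy' (hiff.2 hx')
          · exact hy' hx'
      rw [h3]
      exact h2

/-- A loopless graph with a semi-Kotzig frame has a circuit double cover. -/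
theorem main (G : MGraph V E) (hl : ∀ e, ¬ (G.ends e).IsDiag)
    (h : ∃ H : Finset E, IsSemiKotzigFrame G H) : ∃ F : Multiset (Finset E), G.IsCDC F := by
  obtain ⟨H, hH⟩ := h
  obtain ⟨v, hv⟩ := G.exists_halves
  exact cdc_of_cuts G v hv (no_bridge G hl H hH v hv)

end Pool.Agent.Y411.Kotzig
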